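import Pool.Agent.R188.Col

set_option autoImplicit false
open Set Filter Topology

namespace Pool.Agent.Results.MP_1ba01c_an.NotCollinear

/-- The phase-lock area number `r`: parameters `(B, A)` for which a solution of
`dφ/dτ = (1/ω)(-sin φ + B + A cos τ)` has rotation number `lim φ(τ)/τ = r`. -/
def L (ω : ℝ) (r : ℤ) : Set (ℝ × ℝ) := {p | ∃ φ : ℝ → ℝ,
  (∀ τ : ℝ, HasDerivAt φ (1 / ω * (-Real.sin (φ τ) + p.1 + p.2 * Real.cos τ)) τ) ∧
  Tendsto (fun τ : ℝ => φ τ / τ) atTop (𝓝 (r : ℝ))}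

/-- An adjacency of `L_r`: a point with `A ≠ 0` which is the only point of `L_r` at its height. -/
def IsAdjacency (ω : ℝ) (r : ℤ) (p : ℝ × ℝ) : Prop :=
  p.2 ≠ 0 ∧ p ∈ L ω r ∧ ∀ x ∈ L ω r, x.2 = p.2 → x = p

/-- `p` is the `k`-th adjacency `𝓐_{r,k}`: an adjacency with `A > 0` such that exactly `k - 1` adjacencies
of `L_r` with `A > 0` have smaller `A`-coordinate. -/
def IsKth (ω : ℝ) (r : ℤ) (k : ℕ) (p : ℝ × ℝ) : Prop :=
  1 ≤ k ∧ IsAdjacency ω r p ∧ 0 < p.2 ∧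
    {q : ℝ × ℝ | IsAdjacency ω r q ∧ 0 < q.2 ∧ q.2 < p.2}.encard = ((k - 1 : ℕ) : ℕ∞)

lemma first (ω : ℝ) (hω : 0 < ω) (l : ℕ) : ∃ A : ℝ, IsKth ω l 1 ((l : ℝ) * ω, A) ∧
    Pool.Agent.R188.Gar.Idt l (1 / ω) (A / ω) ∧
    ∀ a, 0 < a → Pool.Agent.R188.Gar.Idt l (1 / ω) a → A ≤ ω * a := by
  obtain ⟨gm, gp, a, hm, hp, hle, hmem, ha, ha0, hinf, hdeg, hc, -⟩ :=
    Pool.Agent.R188.Gar.package hω (l : ℤ)
  have hε : 0 < 1 / ω := by positivity
  have hL : ∀ p : ℝ × ℝ, p ∈ L ω l ↔ gm p.2 ≤ p.1 ∧ p.1 ≤ gp p.2 := fun p =>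
    (H535R3.mem_torus hω (l:ℤ) p.1 p.2).trans (hmem p)
  have hpos : ∀ k, 0 < a k := fun k => lt_of_lt_of_le ha0 (ha.monotone (Nat.zero_le k))
  have hadj : ∀ p : ℝ × ℝ, 0 < p.2 → (IsAdjacency ω l p ↔ ∃ k, p = ((l : ℝ) * ω, a k)) := by
    intro p hp0
    constructor
    · rintro ⟨-, h3, h4⟩
      have h5 := (hL p).1 h3
      have h6 := h4 (gm p.2, p.2) ((hL _).2 ⟨le_rfl, hle _⟩) rfl
      have h7 := h4 (gp p.2, p.2) ((hL _).2 ⟨hle _, le_rfl⟩) rfl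
      have h8 : gm p.2 = gp p.2 := congrArg Prod.fst (h6.trans h7.symm)
      obtain ⟨k, hk⟩ := (hdeg _ hp0).1 h8
      refine ⟨k, Prod.ext ?_ hk⟩
      rw [hk, (hc k).1, (hc k).2] at h5
      have := le_antisymm h5.2 h5.1
      push_cast at this
      exact this
    · rintro ⟨k, rfl⟩
      have h0 := hc k
      push_cast at h0
      refine ⟨(hpos k).ne', (hL _).2 ⟨h0.1.le, h0.2.ge⟩, fun x hx hx2 => ?_⟩
      have h3 := (hL x).1 hx
      simp only at hx2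
      rw [hx2, h0.1, h0.2] at h3
      exact Prod.ext (le_antisymm h3.2 h3.1) hx2
  have hidt : ∀ A, 0 < A → ((∃ k, A = a k) ↔ Pool.Agent.R188.Gar.Idt l (1 / ω) (A / ω)) := by
    intro A hA
    rw [← hdeg A hA, ← Pool.Agent.R188.Gar.sing_iff_idt l hε (div_pos hA hω)]
    have hm' : ∀ b, (b, A / ω) ∈ H535R3.Ls l (1 / ω) ↔ gm A ≤ b * ω ∧ b * ω ≤ gp A := by
      intro b
      have h1 := hmem (b * ω, A)
      change (b * ω / ω, A / ω) ∈ H535R3.Ls l (1 / ω) ↔ _ at h1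
      rw [mul_div_cancel_right₀ _ hω.ne'] at h1
      exact h1
    constructor
    · intro h
      refine ⟨gm A / ω, fun b' => ?_⟩
      rw [hm', ← h, eq_div_iff hω.ne']
      exact ⟨fun h' => le_antisymm h'.2 h'.1, fun h' => ⟨h'.ge, h'.le⟩⟩
    · rintro ⟨b, hb⟩
      have h1 := (hb (gm A / ω)).1 ((hm' _).2 (by rw [div_mul_cancel₀ _ hω.ne']; exact ⟨le_rfl, hle A⟩))
      have h2 := (hb (gp A / ω)).1 ((hm' _).2 (by rw [div_mul_cancel₀ _ hω.ne']; exact ⟨hle A, le_rfl⟩))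
      have h3 := h1.trans h2.symm
      rw [div_left_inj' hω.ne'] at h3
      exact h3
  refine ⟨a 0, ⟨le_rfl, (hadj _ ha0).2 ⟨0, rfl⟩, ha0, ?_⟩, (hidt _ ha0).1 ⟨0, rfl⟩, ?_⟩
  · have : {q : ℝ × ℝ | IsAdjacency ω l q ∧ 0 < q.2 ∧ q.2 < ((l : ℝ) * ω, a 0).2} = ∅ := by
      rw [Set.eq_empty_iff_forall_notMem]
      rintro q ⟨h1, h2, h3⟩
      obtain ⟨k, rfl⟩ := (hadj q h2).1 h1
      exact absurd (ha.monotone (Nat.zero_le k)) (not_le.2 h3)
    rw [this]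
    simp
  · intro b hb hI
    obtain ⟨k, hk⟩ := (hidt (ω * b) (by positivity)).2 (by rwa [mul_div_cancel_left₀ _ hω.ne'])
    rw [hk]
    exact ha.monotone (Nat.zero_le k)

/-- The first adjacencies of `L_1, L_2, L_3` are not collinear when `ω` is large. -/
theorem result : ∃ ω₀ : ℝ, 0 < ω₀ ∧ ∀ ω, ω₀ ≤ ω → ∃ p₁ p₂ p₃ : ℝ × ℝ,
    IsKth ω 1 1 p₁ ∧ IsKth ω 2 1 p₂ ∧ IsKth ω 3 1 p₃ ∧ ¬ Collinear ℝ {p₁, p₂, p₃} := by
  have e1 := Pool.Agent.R188.Gar.exists_idt (l := 1) le_rfl (a₁ := 2) (a₂ := 96 / 25) (σ := 1) (by norm_num)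
    (by norm_num) (by have := Pool.Agent.R188.Bes.num2; push_cast; linarith)
    (by have := Pool.Agent.R188.Bes.num384; push_cast; linarith) (by norm_num)
  have e2 := Pool.Agent.R188.Gar.no_idt_two
  have e3 := Pool.Agent.R188.Gar.exists_idt (l := 3) (by norm_num) (a₁ := 4) (a₂ := 32 / 5) (σ := 1) (by norm_num)
    (by norm_num) (by have := Pool.Agent.R188.Bes.J3_neg 4 (by norm_num) (by norm_num); push_cast; linarith)
    (by have := Pool.Agent.R188.Bes.num64; push_cast; linarith) (by norm_num)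
  have e := (e1.and (e2.and e3))
  rw [eventually_nhdsWithin_iff, Metric.eventually_nhds_iff] at e
  obtain ⟨δ, hδ, he⟩ := e
  refine ⟨2 / δ, by positivity, fun ω hω => ?_⟩
  have hω0 : 0 < ω := lt_of_lt_of_le (by positivity) hω
  have hε : 0 < 1 / ω := by positivity
  obtain ⟨⟨a1, h11, h12, h13⟩, h2, ⟨a3, h31, h32, h33⟩⟩ := he (y := 1 / ω) (by
    rw [dist_zero_right, Real.norm_eq_abs, abs_of_pos hε, div_lt_iff₀ hω0]
    rw [div_le_iff₀ hδ] at hω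
    linarith) hε
  obtain ⟨A1, k1, i1, m1⟩ := first ω hω0 1
  obtain ⟨A2, k2, i2, m2⟩ := first ω hω0 2
  obtain ⟨A3, k3, i3, m3⟩ := first ω hω0 3
  refine ⟨_, _, _, k1, k2, k3, ?_⟩
  have b1 : A1 < ω * (96 / 25) := lt_of_le_of_lt (m1 a1 (by linarith) h13) (mul_lt_mul_of_pos_left h12 hω0)
  have b3 : A3 < ω * (32 / 5) := lt_of_le_of_lt (m3 a3 (by linarith) h33) (mul_lt_mul_of_pos_left h32 hω0)
  have b2 : ω * (41 / 8) < A2 := by
    by_contra hcon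
    push Not at hcon
    have hA2 : 0 < A2 := k2.2.2.1
    refine h2 (A2 / ω) (by positivity) ?_ i2
    rw [div_le_iff₀ hω0]; linarith
  intro hcol
  rw [collinear_iff_of_mem (p₀ := (((1:ℕ) : ℝ) * ω, A1)) (by simp)] at hcol
  obtain ⟨v, hv⟩ := hcol
  obtain ⟨s, hs⟩ := hv (((2:ℕ) : ℝ) * ω, A2) (by simp)
  obtain ⟨t, ht⟩ := hv (((3:ℕ) : ℝ) * ω, A3) (by simp)
  have s1 := congrArg Prod.fst hs
  have s2 := congrArg Prod.snd hs
  have t1 := congrArg Prod.fst ht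
  have t2 := congrArg Prod.snd ht
  simp only [vadd_eq_add, Prod.fst_add, Prod.snd_add, Prod.smul_fst, Prod.smul_snd, smul_eq_mul] at s1 s2 t1 t2
  push_cast at s1 s2 t1 t2
  have u1 : s * v.1 = ω := by linarith
  have u2 : t * v.1 = 2 * ω := by linarith
  have hv1 : v.1 ≠ 0 := by rintro h0; rw [h0, mul_zero] at u1; linarith
  have u3 : t = 2 * s := by
    have : (t - 2 * s) * v.1 = 0 := by linarith
    have := (mul_eq_zero.1 this).resolve_right hv1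
    linarith
  rw [u3] at t2
  nlinarith

end Pool.Agent.Results.MP_1ba01c_an.NotCollinear
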